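import Pool.Agent.Q50.MC.Defs
import Pool.Agent.Q50.GE.Defs

/-!
# Cohomology modulo p of congruence subgroups over imaginary quadratic fields: data and known facts
-/

set_option autoImplicit false

universe u

open NumberField

namespace Pool.Agent.Q50.ES.MB

open MS (Mod Irreducible InSpan2)
open MC (UpperDensityIn InClass NoQuadratic)

/-- `F` is an imaginary quadratic field of class number one. -/
def ClassNumberOne (F : Fld) : Prop :=
  ES.GE.ImaginaryQuadratic F ∧ IsPrincipalIdealRing (𝓞 F)

/-- The ideals of the ring of integers of `F`. -/
def Level (F : Fld) : Type := Ideal (𝓞 F)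

/-- The ideal is not zero. -/
def NonZero {F : Fld} (N : Level F) : Prop := N ≠ (⊥ : Ideal (𝓞 F))

variable (k : Type u) [Field k]

/-- Elliptic curves and cohomology modulo `p`; `k` is an algebraic closure of the field with `p` elements,
`p > 3`. `cyclo`: the cyclotomic character modulo `p`. `Curve F`: the elliptic curves over `F`; `tors E`: the
representation of `Gal(Ω/F)` on `E[p]`, scalars extended to `k`; `Flat E`: it is finite flat at all
primes above `p`; `cond E`: its Serre conductor. `place F`: the finite places of `F`; `norm w`: the number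
of elements of the residue field of `w`; `frob w`: a Frobenius element of `w` in `Gal(Ω/F)`;
`Away N w`: `w` does not divide `p N`. `H F N`, `F` imaginary quadratic of class number one: the
cohomology group `H¹(Y₀(N), k)`; `hecke w`: the Hecke operator `T_π`, `w = (π)`. -/
structure Data where
  /-- the cyclotomic character -/
  cyclo : Γ → k
  /-- elliptic curves -/
  Curve : Fld → Type u
  /-- the representation on the `p`-torsion -/
  tors : ∀ {F}, Curve F → Mod k F
  /-- finite flat above `p` -/
  Flat : ∀ {F}, Curve F → Prop
  /-- the Serre conductor -/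
  cond : ∀ {F}, Curve F → Level F
  /-- the finite places -/
  place : Fld → Type
  /-- the norm -/
  norm : ∀ {F}, place F → ℕ
  /-- a Frobenius element -/
  frob : ∀ {F}, place F → Γ
  /-- places prime to `p N` -/
  Away : ∀ {F}, Level F → place F → Prop
  /-- the cohomology group -/
  H : ∀ F, Level F → Type u
  /-- it is a group -/
  group : ∀ F N, AddCommGroup (H F N)
  /-- it is a vector space -/
  space : ∀ F N, Module k (H F N)
  /-- the Hecke operators -/
  hecke : ∀ {F N}, place F → H F N →ₗ[k] H F N

attribute [instance] Data.group Data.space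

namespace Data

variable {k} (T : Data k)

/-- The determinant of `r` is the cyclotomic character. -/
def Cyclotomic {F : Fld} (r : Mod k F) : Prop := ∀ g ∈ Gal F, (r.toFun g).det = T.cyclo g

/-- The Hecke operator of `w` multiplies `c` by the trace of the Frobenius element of `w` on `r`. -/
def Identity {F : Fld} {N : Level F} (r : Mod k F) (c : T.H F N) (w : T.place F) : Prop :=
  T.hecke w c = (r.toFun (T.frob w)).trace • c

/-- `r` comes from `H¹(Y₀(N), k)`: some class `c ≠ 0` satisfies the identity for all places prime to
`p N`. -/
def Occurs {F : Fld} (N : Level F) (r : Mod k F) : Prop :=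
  ∃ c : T.H F N, c ≠ 0 ∧ ∀ w, T.Away N w → T.Identity r c w

/-- The places of `F` whose Frobenius elements are in the class of `τ` in `Gal(L/F)`. -/
def Class (F L : Fld) (τ : Γ) : Set (T.place F) := {w | InClass F L τ (T.frob w)}

/-- Some class `c ≠ 0` in `H¹(Y₀(N), k)` satisfies the identity for more than `7/8` of the places of `F`
whose Frobenius elements are in the class of `τ` in `Gal(L/F)`. It is not assumed to be an eigenvector
of the other Hecke operators. -/
def OccursMostly {F : Fld} (N : Level F) (r : Mod k F) (L : Fld) (τ : Γ) : Prop :=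
  ∃ c : T.H F N, c ≠ 0 ∧
    UpperDensityIn T.norm (7 / 8) (T.Class F L τ) {w | T.Away N w ∧ T.Identity r c w}

/-- `L` is a finite Galois extension of `F` without quadratic extensions of `F`, over which `r` is
irreducible; `τ ∈ Gal(Ω/F)`. -/
def Admissible {F : Fld} (r : Mod k F) (L : Fld) (τ : Γ) : Prop :=
  FiniteGalois F L ∧ NoQuadratic F L ∧ (∀ t, InSpan2 {t | ∃ g ∈ Gal L, t = r.toFun g} t) ∧
    τ ∈ Gal F

/-- The class `c` is an eigenvector of the Hecke operators of the places prime to `p N`. -/
def Eigen {F : Fld} {N : Level F} (c : T.H F N) : Prop :=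
  c ≠ 0 ∧ ∀ w, T.Away N w → ∃ a : k, T.hecke w c = a • c

/-- Known (Scholze; Harris, Lan, Taylor, Thorne in characteristic zero): every eigenvector in the
cohomology has a Galois representation; its determinant is cyclotomic. -/
def Scholze : Prop :=
  ∀ (F : Fld) (N : Level F) (c : T.H F N), ClassNumberOne F → NonZero N → T.Eigen c →
    ∃ s : Mod k F, T.Cyclotomic s ∧ ∀ w, T.Away N w → T.Identity s c w

/-- The known facts: the theorems of Scholze and Chebotarev; the number of places of bounded norm is
finite; almost all places are prime to `p N` and every class contains infinitely many; the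
cohomology is finite dimensional; the Hecke operators commute; the Weil pairing. -/
structure Facts : Prop where
  scholze : T.Scholze
  chebotarev : ∀ F : Fld, ClassNumberOne F → MC.Chebotarev F (T.norm (F := F)) T.frob
  frob_mem : ∀ (F : Fld) (w : T.place F), T.frob w ∈ Gal F
  places : ∀ (F : Fld) (x : ℕ), ClassNumberOne F → {w : T.place F | T.norm w ≤ x}.Finite
  away : ∀ (F : Fld) (N : Level F) (L : Fld) (τ : Γ), ClassNumberOne F → NonZero N →
    FiniteGalois F L → τ ∈ Gal F →
    UpperDensityIn T.norm (7 / 8) (T.Class F L τ) {w : T.place F | T.Away N w}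
  finite : ∀ (F : Fld) (N : Level F), ClassNumberOne F → NonZero N →
    FiniteDimensional k (T.H F N)
  comm : ∀ (F : Fld) (N : Level F) (v w : T.place F) (c : T.H F N), T.Away N v → T.Away N w →
    T.hecke v (T.hecke w c) = T.hecke w (T.hecke v c)
  cond_ne : ∀ (F : Fld) (E : T.Curve F), NonZero (T.cond E)
  weil : ∀ (F : Fld) (E : T.Curve F), T.Cyclotomic (T.tors E)

end Data

end Pool.Agent.Q50.ES.MB
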