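import Pool.Agent.Q50.MB.Defs
import Pool.Agent.Q50.MC.Main

/-!
# Classes which satisfy the Hecke identities at most places
-/

set_option autoImplicit false
set_option maxHeartbeats 4000000
set_option synthInstance.maxHeartbeats 400000
set_option linter.unusedSectionVars false
set_option linter.ambiguousOpen false

universe u

open NumberField

namespace Pool.Agent.Q50.ES.MB

open MS (Mod Irreducible InSpan2)
open MC (UpperDensityIn InClass NoQuadratic)

variable {k : Type u} [Field k]

/-- Commuting operators which preserve a subspace have a common eigenvector in it. -/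
theorem exists_eigenvector [IsAlgClosed k] {ι : Type*} {V : Type*} [AddCommGroup V] [Module k V]
    [FiniteDimensional k V] (T : ι → V →ₗ[k] V) (P : ι → Prop)
    (hcomm : ∀ i j, P i → P j → ∀ x, T i (T j x) = T j (T i x)) :
    ∀ (n : ℕ) (W : Submodule k V), Module.finrank k W = n → W ≠ ⊥ →
      (∀ i, P i → ∀ x ∈ W, T i x ∈ W) →
      ∃ c ∈ W, c ≠ 0 ∧ ∀ i, P i → ∃ a : k, T i c = a • c := by
  intro n
  induction n using Nat.strong_induction_on with
  | _ n ih =>
    intro W hn hW hst
    by_cases hsc : ∀ i, P i → ∃ a : k, ∀ x ∈ W, T i x = a • x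
    · obtain ⟨c, hc, hc0⟩ := Submodule.exists_mem_ne_zero_of_ne_bot hW
      exact ⟨c, hc, hc0, fun i hi => (hsc i hi).imp fun a ha => ha c hc⟩
    push Not at hsc
    obtain ⟨i, hi, hns⟩ := hsc
    have hnt : Nontrivial W := Submodule.nontrivial_iff_ne_bot.2 hW
    obtain ⟨a, ha⟩ := Module.End.exists_eigenvalue ((T i).restrict (hst i hi))
    obtain ⟨x, hx⟩ := ha.exists_hasEigenvector
    let W' : Submodule k V := W ⊓ Module.End.eigenspace (T i) a
    have hmem : ∀ y, y ∈ W' ↔ y ∈ W ∧ T i y = a • y := by
      intro y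
      rw [Submodule.mem_inf, Module.End.mem_eigenspace_iff]
    have hxW' : (x : V) ∈ W' := by
      refine (hmem _).2 ⟨x.2, ?_⟩
      have := hx.apply_eq_smul
      exact congrArg Subtype.val this
    have hW'0 : W' ≠ ⊥ := by
      intro h
      rw [h, Submodule.mem_bot] at hxW'
      exact hx.2 (Subtype.ext hxW')
    have hlt : W' < W := by
      refine lt_of_le_of_ne inf_le_left fun h => ?_
      obtain ⟨y, hy, hya⟩ := hns a
      rw [← h] at hy
      exact hya ((hmem y).1 hy).2
    have hst' : ∀ j, P j → ∀ y ∈ W', T j y ∈ W' := by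
      intro j hj y hy
      obtain ⟨h1, h2⟩ := (hmem y).1 hy
      refine (hmem _).2 ⟨hst j hj y h1, ?_⟩
      rw [hcomm i j hi hj, h2, map_smul]
    obtain ⟨c, hc, hc0, hce⟩ := ih (Module.finrank k W')
      (hn ▸ Submodule.finrank_lt_finrank_of_lt hlt) W' rfl hW'0 hst'
    exact ⟨c, hlt.le hc, hc0, hce⟩

namespace Data

variable {T : Data k}

/-- **One representation.** -/
theorem occurs_iff [IsAlgClosed k] (hT : T.Facts) {F : Fld} (hF : ClassNumberOne F)
    {N : Level F} (hN : NonZero N) (r : Mod k F) (hcyc : T.Cyclotomic r) {L : Fld} {τ : Γ}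
    (ha : Admissible r L τ) : T.Occurs N r ↔ T.OccursMostly N r L τ := by
  classical
  obtain ⟨hL, hnq, hirr, hτ⟩ := ha
  constructor
  · rintro ⟨c, hc, h⟩
    refine ⟨c, hc, ?_⟩
    have h1 : {w | T.Away N w ∧ T.Identity r c w} = {w : T.place F | T.Away N w} :=
      Set.ext fun w => ⟨fun hw => hw.1, fun hw => ⟨hw, h w hw⟩⟩
    rw [h1]
    exact hT.away F N L τ hF hN hL hτ
  · rintro ⟨c, hc, hd⟩
    have hfin := hT.finite F N hF hN
    -- the common eigenspace
    let W : Submodule k (T.H F N) :=
      { carrier := {x | ∀ w, T.Away N w → T.Identity r c w → T.Identity r x w}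
        add_mem' := by
          intro x y hx hy w hw hi
          change T.hecke w (x + y) = _ • (x + y)
          have h1 : T.hecke w x = _ • x := hx w hw hi
          have h2 : T.hecke w y = _ • y := hy w hw hi
          rw [map_add, h1, h2, smul_add]
        zero_mem' := by
          intro w _ _
          change T.hecke w 0 = _ • 0
          rw [map_zero, smul_zero]
        smul_mem' := by
          intro a x hx w hw hi
          change T.hecke w (a • x) = _ • (a • x)
          have h1 : T.hecke w x = _ • x := hx w hw hi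
          rw [map_smul, h1, smul_comm] }
    have hcW : c ∈ W := fun w _ hi => hi
    obtain ⟨e, heW, he0, he⟩ := exists_eigenvector (V := T.H F N) (fun w : T.place F => T.hecke w)
      (fun w => T.Away N w) (fun v w hv hw x => hT.comm F N v w x hv hw) _ W rfl (by
        intro h
        rw [h, Submodule.mem_bot] at hcW
        exact hc hcW) (by
        intro v hv x hx w hw hi
        change T.hecke w (T.hecke v x) = _ • T.hecke v x
        have h1 : T.hecke w x = _ • x := hx w hw hi
        rw [hT.comm F N w v x hw hv, h1, map_smul])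
    obtain ⟨s, hsc, hs⟩ := hT.scholze F N e hF hN ⟨he0, he⟩
    obtain ⟨P, hP⟩ := MC.iso_of_density (hT.chebotarev F hF) (hT.frob_mem F) hL hτ r s hirr (by
        obtain ⟨δ, hδ, hfr⟩ := hd
        refine ⟨δ, hδ, hfr.mono fun x hx => hx.trans ?_⟩
        have hfx : ({w : T.place F | T.norm w ≤ x}).Finite := hT.places F x hF
        exact_mod_cast Set.ncard_le_ncard (by
          rintro w ⟨⟨⟨hw, hi⟩, hwc⟩, hwx⟩
          refine ⟨⟨⟨hwc, ?_⟩, hwc⟩, hwx⟩
          have h1 : T.hecke w e = (r.toFun (T.frob w)).trace • e := heW w hw hi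
          have h2 : T.hecke w e = (s.toFun (T.frob w)).trace • e := hs w hw
          have h3 : ((r.toFun (T.frob w)).trace - (s.toFun (T.frob w)).trace) • e = 0 := by
            rw [sub_smul, ← h1, ← h2, sub_self]
          exact sub_eq_zero.1 ((smul_eq_zero.1 h3).resolve_right he0))
          (hfx.subset Set.inter_subset_right))
    have hiso := MC.iso_of_det hL hnq r s hirr
      (fun g hg => (hcyc g hg).trans (hsc g hg).symm) hP
    refine ⟨e, he0, fun w hw => ?_⟩
    have h1 : T.hecke w e = (s.toFun (T.frob w)).trace • e := hs w hw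
    change T.hecke w e = _
    rw [h1, hiso _ (hT.frob_mem F w), Matrix.trace_mul_comm, ← mul_assoc, ← Units.val_mul,
      inv_mul_cancel, Units.val_one, one_mul]

theorem admissible_self {F : Fld} (hF : FiniteDimensional ℚ F) (r : Mod k F)
    (hr : Irreducible r) : Admissible r F 1 := by
  refine ⟨⟨le_rfl, hF, fun g hg x hx => ?_⟩, ?_, hr, F.fixingSubgroup.one_mem⟩
  · have h1 : g x = x := (IntermediateField.mem_fixingSubgroup_iff F g).1 hg x hx
    rw [h1]
    exact hx
  · intro H h1 h2 h3
    have : H = F.fixingSubgroup := le_antisymm h2 h1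
    rw [this, Subgroup.relIndex_self] at h3
    exact absurd h3 (by norm_num)

/-- **All elliptic curves.** -/
theorem all_iff [IsAlgClosed k] (hT : T.Facts) :
    (∀ F, ClassNumberOne F → ∀ E : T.Curve F, Irreducible (T.tors E) → T.Flat E →
      T.Occurs (T.cond E) (T.tors E)) ↔
    ∀ F, ClassNumberOne F → ∀ E : T.Curve F, Irreducible (T.tors E) → T.Flat E →
      ∃ L τ, Admissible (T.tors E) L τ ∧ T.OccursMostly (T.cond E) (T.tors E) L τ := by
  constructor
  · intro h F hF E hE hfl
    have ha := admissible_self hF.1.1.1 (T.tors E) hE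
    exact ⟨F, 1, ha, (occurs_iff hT hF (hT.cond_ne F E) _ (hT.weil F E) ha).1 (h F hF E hE hfl)⟩
  · intro h F hF E hE hfl
    obtain ⟨L, τ, ha, ho⟩ := h F hF E hE hfl
    exact (occurs_iff hT hF (hT.cond_ne F E) _ (hT.weil F E) ha).2 ho

end Data

end Pool.Agent.Q50.ES.MB
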